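import Pool.Agent.K1H1.GA.Cats
import Pool.Agent.K1H1.GA.Main

/-!
# There is no tensor triangulated equivalence between the bounded derived categories of
# polynomial representations of the infinite general affine group and of algebraic
# representations of the infinite symmetric group
-/

open CategoryTheory

namespace Pool.Agent.Results.MP_8d69b9_al.NotTensorEquivalent

open Pool.Agent.K1H1.GA

universe w w'

theorem result [HasDerivedCategory.{w} (RepPol VGA)] [HasDerivedCategory.{w'} (RepPol VSS)] :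
    ¬ ∃ F : Db VGA ≌ Db VSS, TensorCompatible F.functor := by
  rename_i h1 h2
  let h1' : HasDerivedCategory.{w} (Cat (std GAinf)) := h1
  let h2' : HasDerivedCategory.{w'} (Cat (std SSinf)) := h2
  rintro ⟨F, hF⟩
  refine @main_internal h1' h2' ⟨F, ?_⟩
  refine ⟨hF.shift, hF.unit, fun K L T K' L' T' hK hL hT hK' hL' hT' h1 h2 h3 h4 => ?_⟩
  exact hF.tensor ⟨K, hK⟩ ⟨L, hL⟩ ⟨T, hT⟩ ⟨K', hK'⟩ ⟨L', hL'⟩ ⟨T', hT'⟩ h1 h2 h3 h4

end Pool.Agent.Results.MP_8d69b9_al.NotTensorEquivalent
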